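import Mathlib
import Pool.Agent.TH170.QC.Row

/-!
# The column spaces of a stable space of functions modulo `p`
-/

set_option linter.unusedSectionVars false
set_option linter.unusedVariables false

namespace Pool.Agent.TH170.QE

open Finset Module Pool.Agent.TH170.MF Pool.Agent.TH170.QC

variable {p : ℕ} [Fact p.Prime] {G X : Type*} [Group G] [Fintype G] [MulAction G X] [Fintype X]
  [MulAction.IsPretransitive G X] {n : ℕ} {D : Fin n → Type*} {d : Fin n → ℕ}
  [∀ i, Field (D i)] [∀ i, Algebra (ZMod p) (D i)] [∀ i, Module.Finite (ZMod p) (D i)]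
  [∀ i, NeZero (d i)]
  (π : MonoidAlgebra (ZMod p) G ≃ₐ[ZMod p] Π i, Matrix (Fin (d i)) (Fin (d i)) (D i))

/-- A space of functions modulo `p` that is stable under the group algebra. -/
def Stable (G : Type*) [Group G] [Fintype G] [MulAction G X] (R : Submodule (ZMod p) (X → ZMod p)) :
    Prop :=
  ∀ w ∈ R, ∀ y : MonoidAlgebra (ZMod p) G, act w y ∈ R

/-- The space generated by the columns of the elements of a space in the component `i`. -/
def col (x₀ : X) {R : Submodule (ZMod p) (X → ZMod p)} (hR : Stable G R) (i : Fin n) :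
    Submodule (D i) (Fin (d i) → D i) where
  carrier := {v | ∃ w ∈ R, v = (π (theta x₀ w) i).mulVec (Pi.single 0 1)}
  zero_mem' := ⟨0, R.zero_mem, by rw [theta_zero, map_zero, Pi.zero_apply, Matrix.zero_mulVec]⟩
  add_mem' := by
    rintro _ _ ⟨w, hw, rfl⟩ ⟨w', hw', rfl⟩
    refine ⟨w + w', R.add_mem hw hw', ?_⟩
    rw [theta_add, map_add, Pi.add_apply, Matrix.add_mulVec]
  smul_mem' := by
    rintro δ _ ⟨w, hw, rfl⟩
    refine ⟨act w (π.symm (Pi.single i (Matrix.scalar (Fin (d i)) δ))), hR w hw _, ?_⟩
    rw [← theta_mul, map_mul, Pi.mul_apply, AlgEquiv.apply_symm_apply, Pi.single_eq_same,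
      ← Matrix.mulVec_mulVec]
    have h1 : (Matrix.scalar (Fin (d i)) δ).mulVec (Pi.single 0 1) = δ • Pi.single 0 1 := by
      rw [Matrix.scalar_apply, ← Matrix.smul_one_eq_diagonal, Matrix.smul_mulVec,
        Matrix.one_mulVec]
    rw [h1, Matrix.mulVec_smul]

theorem mulVec_mem_col (x₀ : X) {R : Submodule (ZMod p) (X → ZMod p)} (hR : Stable G R) (i : Fin n)
    {w : X → ZMod p} (hw : w ∈ R) (a : Fin (d i) → D i) :
    (π (theta x₀ w) i).mulVec a ∈ col π x₀ hR i := by
  classical
  refine ⟨act w (π.symm (Pi.single i (Matrix.vecMulVec a (Pi.single 0 1)))), hR w hw _, ?_⟩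
  rw [← theta_mul, map_mul, Pi.mul_apply, AlgEquiv.apply_symm_apply, Pi.single_eq_same,
    ← Matrix.mulVec_mulVec]
  congr 1
  rw [Matrix.mulVec_single_one]
  funext k
  rw [Matrix.col_apply, Matrix.vecMulVec_apply, Pi.single_eq_same, mul_one]

/-- Elements with columns in the column spaces come from functions of the space. -/
theorem exists_of_cols (x₀ : X) {R : Submodule (ZMod p) (X → ZMod p)} (hR : Stable G R)
    (y : MonoidAlgebra (ZMod p) G) (hy : ∀ i a, (π y i).mulVec a ∈ col π x₀ hR i) :
    ∃ w ∈ R, theta x₀ w = y := by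
  classical
  have h1 : ∀ i, ∀ l : Fin (d i), ∃ w ∈ R, (π y i).mulVec (Pi.single l 1) =
      (π (theta x₀ w) i).mulVec (Pi.single 0 1) := fun i l => hy i _
  choose w hw hwe using h1
  refine ⟨∑ i, ∑ l : Fin (d i), act (w i l) (π.symm (Pi.single i
    (Matrix.vecMulVec (Pi.single 0 1) (Pi.single l 1)))),
    R.sum_mem fun i _ => R.sum_mem fun l _ => hR _ (hw i l) _, ?_⟩
  have hθ : ∀ {ι : Type} (s : Finset ι) (F : ι → (X → ZMod p)),
      (theta x₀ (∑ i ∈ s, F i) : MonoidAlgebra (ZMod p) G) = ∑ i ∈ s, theta x₀ (F i) := by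
    intro ι s F
    induction s using Finset.induction_on with
    | empty => rw [sum_empty, sum_empty, theta_zero]
    | insert i s hi ih => rw [sum_insert hi, sum_insert hi, theta_add, ih]
  apply π.injective
  rw [hθ, map_sum]
  funext j
  rw [Finset.sum_apply, Finset.sum_eq_single j]
  · rw [hθ, map_sum, Finset.sum_apply]
    have h2 : ∀ l : Fin (d j), π (theta x₀ (act (w j l) (π.symm (Pi.single j
        (Matrix.vecMulVec (Pi.single 0 1) (Pi.single l 1)))))) j =
        Matrix.vecMulVec ((π y j).mulVec (Pi.single l 1)) (Pi.single l 1) := by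
      intro l
      rw [← theta_mul, map_mul, Pi.mul_apply, AlgEquiv.apply_symm_apply, Pi.single_eq_same,
        Matrix.mul_vecMulVec, hwe]
    rw [sum_congr rfl fun l _ => h2 l]
    ext a b
    rw [Matrix.sum_apply, Finset.sum_eq_single b]
    · rw [Matrix.vecMulVec_apply, Pi.single_eq_same, mul_one, Matrix.mulVec_single_one,
        Matrix.col_apply]
    · intro l _ hl
      rw [Matrix.vecMulVec_apply, Pi.single_eq_of_ne (Ne.symm hl), mul_zero]
    · intro h
      exact absurd (mem_univ _) h
  · intro i _ hij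
    rw [hθ, map_sum, Finset.sum_apply]
    refine sum_eq_zero fun l _ => ?_
    rw [← theta_mul, map_mul, Pi.mul_apply, AlgEquiv.apply_symm_apply,
      Pi.single_eq_of_ne (Ne.symm hij), mul_zero]
  · intro h
    exact absurd (mem_univ _) h

/-- The functions of a space that are fixed by an element of the group algebra. -/
def fixBy (R : Submodule (ZMod p) (X → ZMod p)) (ε : MonoidAlgebra (ZMod p) G) :
    Submodule (ZMod p) (X → ZMod p) where
  carrier := {w | w ∈ R ∧ act w ε = w}
  zero_mem' := ⟨R.zero_mem, by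
    funext x
    simp [act]⟩
  add_mem' := by
    rintro w w' ⟨h1, h2⟩ ⟨h3, h4⟩
    exact ⟨R.add_mem h1 h3, by rw [act_add_left, h2, h4]⟩
  smul_mem' := by
    rintro r w ⟨h1, h2⟩
    exact ⟨R.smul_mem r h1, by rw [act_smul_left, h2]⟩

/-- The dimension of the space of the functions fixed by an idempotent element. -/
theorem finrank_fixBy (x₀ : X) {R : Submodule (ZMod p) (X → ZMod p)} (hR : Stable G R)
    {ε : MonoidAlgebra (ZMod p) G} (hε : ε * ε = ε) :
    finrank (ZMod p) (fixBy R ε) = ∑ i, finrank (ZMod p) (D i) *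
      (finrank (D i) (LinearMap.range (π ε i).mulVecLin) * finrank (D i) (col π x₀ hR i)) := by
  classical
  let Ξ : fixBy R ε →ₗ[ZMod p]
      (∀ i, LinearMap.range (π ε i).mulVecLin →ₗ[D i] col π x₀ hR i) :=
    { toFun := fun w i => (((π (theta x₀ (w : X → ZMod p)) i).mulVecLin).codRestrict
        (col π x₀ hR i) (fun a => mulVec_mem_col π x₀ hR i w.2.1 a)).comp
          (LinearMap.range (π ε i).mulVecLin).subtype
      map_add' := by
        intro w w'
        funext i
        ext v : 2
        simp only [LinearMap.comp_apply, LinearMap.codRestrict_apply, Matrix.mulVecLin_apply,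
          Pi.add_apply, LinearMap.add_apply, Submodule.coe_add, theta_add, map_add]
      map_smul' := by
        intro r w
        funext i
        ext v : 2
        simp only [LinearMap.comp_apply, LinearMap.codRestrict_apply, Matrix.mulVecLin_apply,
          Pi.smul_apply, LinearMap.smul_apply, RingHom.id_apply, theta_smul, map_smul,
          Matrix.smul_mulVec, Submodule.coe_smul]
        rfl }
  have hΞ : ∀ (w : fixBy R ε) i (v : LinearMap.range (π ε i).mulVecLin),
      ((Ξ w i v : col π x₀ hR i) : Fin (d i) → D i) =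
        (π (theta x₀ (w : X → ZMod p)) i).mulVec (v : Fin (d i) → D i) := fun w i v => rfl
  have hfix : ∀ w : X → ZMod p, act w ε = w → ∀ i,
      π (theta x₀ w) i * π ε i = π (theta x₀ w) i := by
    intro w hw i
    rw [← Pi.mul_apply, ← map_mul, theta_mul, hw]
  have hinj : Function.Injective Ξ := by
    refine (injective_iff_map_eq_zero Ξ).2 fun w hw => ?_
    have h1 : (theta x₀ (w : X → ZMod p) : MonoidAlgebra (ZMod p) G) = theta x₀ 0 := by
      apply π.injective
      rw [theta_zero, map_zero]
      funext i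
      rw [Pi.zero_apply, ← hfix w w.2.2 i]
      ext a b
      have h2 := hΞ w i ⟨(π ε i).mulVecLin (Pi.single b 1), LinearMap.mem_range_self _ _⟩
      rw [hw] at h2
      have h3 : (0 : Fin (d i) → D i) = (π (theta x₀ (w : X → ZMod p)) i).mulVec
          ((π ε i).mulVec (Pi.single b 1)) := h2
      rw [Matrix.mulVec_mulVec, Matrix.mulVec_single_one] at h3
      exact (congrFun h3 a).symm
    exact Subtype.ext (theta_injective (G := G) x₀ h1)
  have hsurj : Function.Surjective Ξ := by
    intro T
    let M : ∀ i, Matrix (Fin (d i)) (Fin (d i)) (D i) := fun i =>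
      LinearMap.toMatrix' (((col π x₀ hR i).subtype.comp (T i)).comp
        (π ε i).mulVecLin.rangeRestrict)
    have hM : ∀ i a, (M i).mulVec a = (T i ⟨(π ε i).mulVecLin a, LinearMap.mem_range_self _ _⟩ :
        Fin (d i) → D i) := by
      intro i a
      simp only [M]
      rw [LinearMap.toMatrix'_mulVec]
      rfl
    obtain ⟨w, hw, hwy⟩ := exists_of_cols π x₀ hR (π.symm M) (fun i a => by
      rw [AlgEquiv.apply_symm_apply, hM]
      exact (T i _).2)
    have hid : ∀ i, π ε i * π ε i = π ε i := fun i => by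
      rw [← Pi.mul_apply, ← map_mul, hε]
    have hMε : ∀ i, M i * π ε i = M i := by
      intro i
      ext a b
      have h1 : (M i * π ε i).mulVec (Pi.single b 1) = (M i).mulVec (Pi.single b 1) := by
        rw [← Matrix.mulVec_mulVec, hM, hM]
        congr 2
        apply Subtype.ext
        change (π ε i).mulVec ((π ε i).mulVec (Pi.single b 1)) = (π ε i).mulVec (Pi.single b 1)
        rw [Matrix.mulVec_mulVec, hid]
      rw [Matrix.mulVec_single_one, Matrix.mulVec_single_one] at h1
      exact congrFun h1 a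
    have hact : act w ε = w := by
      apply theta_injective (G := G) x₀
      rw [← theta_mul, hwy]
      apply π.injective
      funext i
      rw [map_mul, Pi.mul_apply, AlgEquiv.apply_symm_apply, hMε]
    refine ⟨⟨w, hw, hact⟩, ?_⟩
    funext i
    refine LinearMap.ext fun v => Subtype.ext ?_
    rw [hΞ]
    change (π (theta x₀ w) i).mulVec (v : Fin (d i) → D i) = _
    rw [hwy, AlgEquiv.apply_symm_apply, hM]
    congr 2
    apply Subtype.ext
    obtain ⟨a, ha⟩ := v.2
    rw [← ha]
    change (π ε i).mulVec ((π ε i).mulVec a) = (π ε i).mulVec a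
    rw [Matrix.mulVec_mulVec, hid]
  rw [LinearEquiv.finrank_eq (LinearEquiv.ofBijective Ξ ⟨hinj, hsurj⟩),
    Module.finrank_pi_fintype]
  refine sum_congr rfl fun i _ => ?_
  rw [← Module.finrank_linearMap (D i) (D i) (LinearMap.range (π ε i).mulVecLin)
    (col π x₀ hR i)]
  exact (Module.finrank_mul_finrank (ZMod p) (D i)
    (LinearMap.range (π ε i).mulVecLin →ₗ[D i] col π x₀ hR i)).symm

end Pool.Agent.TH170.QE
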