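import Mathlib
import Pool.Agent.TH170.QE.Block

/-!
# The dimensions of the spaces fixed by quasi-idempotent elements
-/

set_option linter.unusedSectionVars false
set_option linter.unusedVariables false

namespace Pool.Agent.TH170.QE

open Finset Module Pool.Agent.TH170.MF Pool.Agent.TH170.QC

section fixQ

variable {G X : Type*} [Group G] [Fintype G] [MulAction G X] [Fintype X]

/-- The functions of a rational space that are multiplied by `N` by an element of the group
ring. -/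
def fixQ (S : Submodule ℚ (X → ℚ)) (ε : MonoidAlgebra ℤ G) (N : ℕ) : Submodule ℚ (X → ℚ) where
  carrier := {s | s ∈ S ∧ ∀ x, ∑ γ, (ε.coeff γ : ℚ) * s (γ • x) = N * s x}
  zero_mem' := ⟨S.zero_mem, fun x => by simp⟩
  add_mem' := by
    rintro s t ⟨h1, h2⟩ ⟨h3, h4⟩
    refine ⟨S.add_mem h1 h3, fun x => ?_⟩
    simp only [Pi.add_apply, mul_add, sum_add_distrib]
    rw [h2, h4]
  smul_mem' := by
    rintro r s ⟨h1, h2⟩
    refine ⟨S.smul_mem r h1, fun x => ?_⟩
    simp only [Pi.smul_apply, smul_eq_mul]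
    rw [← mul_left_comm, ← h2 x, mul_sum]
    exact sum_congr rfl fun γ _ => by ring

variable {p : ℕ} [Fact p.Prime]

theorem stable_redSpace [MulAction.IsPretransitive G X] {S : Submodule ℚ (X → ℚ)}
    (hS : Invariant G S) :
    Stable G (redSpace p S) := fun w hw y => act_mem_redSpace hS hw y

theorem red_smul_nat (N : ℕ) (ε : MonoidAlgebra ℤ G) :
    red p G (N • ε) = (N : ZMod p) • red p G ε := by
  ext γ
  rw [coeff_red, MonoidAlgebra.coeff_smul, MonoidAlgebra.coeff_smul, Finsupp.smul_apply,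
    Finsupp.smul_apply, coeff_red, nsmul_eq_mul, smul_eq_mul]
  push_cast
  rfl

theorem quasi_idem {ε : MonoidAlgebra ℤ G} {N : ℕ} (hε : ε * ε = N • ε) (hN : ¬ p ∣ N) :
    ((N : ZMod p)⁻¹ • red p G ε) * ((N : ZMod p)⁻¹ • red p G ε) = (N : ZMod p)⁻¹ • red p G ε := by
  have hN' : (N : ZMod p) ≠ 0 := fun h => hN ((ZMod.natCast_eq_zero_iff _ _).1 h)
  rw [smul_mul_smul_comm, ← map_mul, hε, red_smul_nat, smul_smul, mul_assoc,
    inv_mul_cancel₀ hN', mul_one]

theorem act_red (u : X → ℤ) (ε : MonoidAlgebra ℤ G) :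
    act (fun x => ((u x : ℤ) : ZMod p)) (red p G ε) = fun x => ((act u ε x : ℤ) : ZMod p) := by
  funext x
  rw [act, act]
  push_cast
  exact sum_congr rfl fun γ _ => by rw [coeff_red]

theorem mem_fixQ_int {S : Submodule ℚ (X → ℚ)} {ε : MonoidAlgebra ℤ G} {N : ℕ} {u : X → ℤ} :
    (fun x => (u x : ℚ)) ∈ fixQ S ε N ↔ u ∈ intPart S ∧ act u ε = N • u := by
  constructor
  · rintro ⟨h1, h2⟩
    refine ⟨h1, ?_⟩
    funext x
    have h3 := h2 x
    beta_reduce at h3
    rw [act, Pi.smul_apply, nsmul_eq_mul]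
    exact_mod_cast h3
  · rintro ⟨h1, h2⟩
    refine ⟨h1, fun x => ?_⟩
    have h3 := congrFun h2 x
    rw [act, Pi.smul_apply, nsmul_eq_mul] at h3
    beta_reduce
    exact_mod_cast h3

variable [MulAction.IsPretransitive G X] [Nonempty X]

theorem redSpace_fixQ {S : Submodule ℚ (X → ℚ)} (hS : Invariant G S) {ε : MonoidAlgebra ℤ G}
    {N : ℕ} (hε : ε * ε = N • ε) (hN : ¬ p ∣ N) :
    redSpace p (fixQ S ε N) = fixBy (redSpace p S) ((N : ZMod p)⁻¹ • red p G ε) := by
  have hN' : (N : ZMod p) ≠ 0 := fun h => hN ((ZMod.natCast_eq_zero_iff _ _).1 h)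
  ext w
  constructor
  · rintro ⟨u, hu, rfl⟩
    rw [mem_fixQ_int] at hu
    refine ⟨⟨u, hu.1, rfl⟩, ?_⟩
    rw [act_smul_right, act_red, hu.2]
    funext x
    rw [Pi.smul_apply, Pi.smul_apply, smul_eq_mul, nsmul_eq_mul]
    push_cast
    rw [inv_mul_cancel_left₀ hN']
  · rintro ⟨⟨u, hu, rfl⟩, hfix⟩
    have h1 : (fun x => ((act u ε x : ℤ) : ℚ)) ∈ fixQ S ε N := by
      rw [mem_fixQ_int]
      refine ⟨act_mem_intPart hS hu _, ?_⟩
      rw [← act_mul, hε]
      funext x
      rw [act, Pi.smul_apply, act, smul_sum]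
      exact sum_congr rfl fun γ _ => by
        rw [MonoidAlgebra.coeff_smul, Finsupp.smul_apply, smul_mul_assoc]
    have h2 : (fun x => ((act u ε x : ℤ) : ZMod p)) ∈ redSpace p (fixQ S ε N) := ⟨_, h1, rfl⟩
    have h3 := (redSpace p (fixQ S ε N)).smul_mem ((N : ZMod p)⁻¹) h2
    rw [← act_red, ← act_smul_right, hfix] at h3
    exact h3

end fixQ

variable {p : ℕ} [Fact p.Prime] {G X : Type*} [Group G] [Fintype G] [MulAction G X] [Fintype X]
  [MulAction.IsPretransitive G X] {n : ℕ} {D : Fin n → Type*} {d : Fin n → ℕ}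
  [∀ i, Field (D i)] [∀ i, Algebra (ZMod p) (D i)] [∀ i, Module.Finite (ZMod p) (D i)]
  [∀ i, NeZero (d i)]
  (π : MonoidAlgebra (ZMod p) G ≃ₐ[ZMod p] Π i, Matrix (Fin (d i)) (Fin (d i)) (D i))

/-- The multiplicity of the simple module with number `i` in the reduction of a rational space. -/
noncomputable def mult (x₀ : X) {S : Submodule ℚ (X → ℚ)} (hS : Invariant G S) (i : Fin n) : ℕ :=
  finrank (D i) (col π x₀ (stable_redSpace (p := p) hS) i)

/-- The rational dimension in terms of the components modulo `p`. -/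
theorem finrank_fixQ (x₀ : X) {S : Submodule ℚ (X → ℚ)} (hS : Invariant G S)
    {ε : MonoidAlgebra ℤ G} {N : ℕ} (hε : ε * ε = N • ε) (hN : ¬ p ∣ N) :
    finrank ℚ (fixQ S ε N) = ∑ i, finrank (ZMod p) (D i) *
      (finrank (D i) (LinearMap.range (π ((N : ZMod p)⁻¹ • red p G ε) i).mulVecLin) *
        mult π x₀ hS i) := by
  have hX : Nonempty X := ⟨x₀⟩
  rw [← finrank_redSpace (p := p), redSpace_fixQ hS hε hN]
  exact finrank_fixBy π x₀ (stable_redSpace hS) (quasi_idem hε hN)

/-- The dimension of a stable rational space. -/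
theorem finrank_eq_sum (x₀ : X) {S : Submodule ℚ (X → ℚ)} (hS : Invariant G S) :
    finrank ℚ S = ∑ i, finrank (ZMod p) (D i) * (d i * mult π x₀ hS i) := by
  classical
  have h1 : fixQ S (1 : MonoidAlgebra ℤ G) 1 = S := by
    ext s
    refine ⟨fun h => h.1, fun h => ⟨h, fun x => ?_⟩⟩
    rw [Finset.sum_eq_single 1]
    · rw [MonoidAlgebra.coeff_one_one, one_smul]
      simp
    · intro γ _ hγ
      have h1 : (1 : MonoidAlgebra ℤ G).coeff γ = 0 := by
        rw [MonoidAlgebra.one_def]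
        exact Finsupp.single_eq_of_ne hγ
      rw [h1, Int.cast_zero, zero_mul]
    · intro h
      exact absurd (mem_univ _) h
  have h2 := finrank_fixQ π x₀ hS (ε := 1) (N := 1) (by rw [one_mul, one_nsmul])
    (fun h => (Fact.out : p.Prime).one_lt.ne' (Nat.dvd_one.1 h))
  rw [h1] at h2
  rw [h2]
  refine sum_congr rfl fun i _ => ?_
  congr 2
  rw [Nat.cast_one, inv_one, one_smul, map_one, map_one, Pi.one_apply]
  have h3 : LinearMap.range (1 : Matrix (Fin (d i)) (Fin (d i)) (D i)).mulVecLin = ⊤ := by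
    rw [Matrix.mulVecLin_one, LinearMap.range_id]
  rw [h3, finrank_top, Module.finrank_fin_fun]

end Pool.Agent.TH170.QE
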