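import Mathlib
import Pool.Agent.TH170.QE.Rat

/-!
# Equivariant maps between stable spaces, and multiplicities
-/

set_option linter.unusedSectionVars false
set_option linter.unusedVariables false

namespace Pool.Agent.TH170.QE

open Finset Module Pool.Agent.TH170.MF Pool.Agent.TH170.QC

section retraction

variable {X : Type*} [Fintype X]

theorem exists_retraction (S : Submodule ℚ (X → ℚ)) :
    ∃ ρ : (X → ℤ) →ₗ[ℤ] (X → ℤ), (∀ u, ρ u ∈ intPart S) ∧ ∀ u ∈ intPart S, ρ u = u := by
  classical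
  have htf : Module.IsTorsionFree ℤ ((X → ℤ) ⧸ intPart S) := by
    rw [Module.isTorsionFree_iff_smul_eq_zero]
    intro r q h
    by_cases hr : r = 0
    · exact Or.inl hr
    · right
      obtain ⟨u, rfl⟩ := (intPart S).mkQ_surjective q
      rw [← map_smul, Submodule.mkQ_apply, Submodule.Quotient.mk_eq_zero] at h
      rw [Submodule.mkQ_apply, Submodule.Quotient.mk_eq_zero, mem_intPart]
      have hr' : (r : ℚ) ≠ 0 := by exact_mod_cast hr
      have h1 : (fun x => (u x : ℚ)) = (r : ℚ)⁻¹ • fun x => (((r • u) x : ℤ) : ℚ) := by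
        funext x
        rw [Pi.smul_apply, Pi.smul_apply, smul_eq_mul, smul_eq_mul]
        push_cast
        rw [inv_mul_cancel_left₀ hr']
      rw [h1]
      exact S.smul_mem _ h
  have hfree : Module.Free ℤ ((X → ℤ) ⧸ intPart S) := Module.free_of_finite_type_torsion_free'
  obtain ⟨σ, hσ⟩ := Module.projective_lifting_property (intPart S).mkQ
    (LinearMap.id : ((X → ℤ) ⧸ intPart S) →ₗ[ℤ] _) (intPart S).mkQ_surjective
  have hσ' : ∀ q, (intPart S).mkQ (σ q) = q := fun q => congrArg (fun F => F q) hσ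
  refine ⟨LinearMap.id - σ.comp (intPart S).mkQ, fun u => ?_, fun u hu => ?_⟩
  · rw [← Submodule.Quotient.mk_eq_zero, ← Submodule.mkQ_apply, LinearMap.sub_apply, map_sub,
      LinearMap.comp_apply, hσ', LinearMap.id_apply, sub_self]
  · have h1 : (intPart S).mkQ u = 0 := by
      rw [Submodule.mkQ_apply, Submodule.Quotient.mk_eq_zero]
      exact hu
    rw [LinearMap.sub_apply, LinearMap.comp_apply, h1, map_zero, LinearMap.id_apply, sub_zero]

end retraction

section eta

variable {G X : Type*} [Group G] [Fintype G] [MulAction G X] [Fintype X] [DecidableEq X]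
  [MulAction.IsPretransitive G X]

/-- The order of the stabilizer. -/
def stabCard (G : Type*) [Group G] [Fintype G] {X : Type*} [MulAction G X] [DecidableEq X]
    (x₀ : X) : ℕ := (univ.filter (fun γ : G => γ • x₀ = x₀)).card

theorem card_fiber' (x₀ x : X) :
    (univ.filter (fun γ : G => γ • x₀ = x)).card = stabCard G x₀ := by
  have h3 := card_fiber (G := G) x₀ x
  have h4 := card_fiber (G := G) x₀ x₀
  have h5 : 0 < Fintype.card X := Fintype.card_pos_iff.2 ⟨x₀⟩
  exact Nat.eq_of_mul_eq_mul_right h5 (h3.trans h4.symm)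

theorem stabCard_not_dvd {p : ℕ} [Fact p.Prime] (hpG : ¬ p ∣ Nat.card G) (x₀ : X) :
    ¬ p ∣ stabCard G x₀ := by
  intro h
  apply hpG
  rw [Nat.card_eq_fintype_card, ← card_fiber (G := G) x₀ x₀]
  exact Dvd.dvd.mul_right h _

/-- The averaged retraction. -/
theorem exists_eta (x₀ : X) {S : Submodule ℚ (X → ℚ)} (hS : Invariant G S) :
    ∃ e ∈ intPart S, ∀ u ∈ intPart S, ∀ x,
      ∑ γ : G, u (γ⁻¹ • x₀) * e (γ • x) = ((Nat.card G * stabCard G x₀ : ℕ) : ℤ) * u x := by
  classical
  obtain ⟨ρ, hρ1, hρ2⟩ := exists_retraction S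
  have hinv : ∀ (γ : G) (u : X → ℤ), u ∈ intPart S → (fun x => u (γ • x)) ∈ intPart S :=
    fun γ u hu => hS γ _ hu
  let R : (X → ℤ) →ₗ[ℤ] (X → ℤ) :=
    { toFun := fun u x => ∑ γ : G, ρ (fun y => u (γ⁻¹ • y)) (γ • x)
      map_add' := by
        intro u v
        funext x
        rw [Pi.add_apply, ← sum_add_distrib]
        refine sum_congr rfl fun γ _ => ?_
        rw [← Pi.add_apply, ← map_add]
        rfl
      map_smul' := by
        intro r u
        funext x
        rw [Pi.smul_apply, smul_sum]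
        refine sum_congr rfl fun γ _ => ?_
        rw [RingHom.id_apply, ← Pi.smul_apply, ← map_smul]
        rfl }
  have hR : ∀ u x, R u x = ∑ γ : G, ρ (fun y => u (γ⁻¹ • y)) (γ • x) := fun u x => rfl
  have hRS : ∀ u, R u ∈ intPart S := by
    intro u
    have h1 : R u = ∑ γ : G, fun x => ρ (fun y => u (γ⁻¹ • y)) (γ • x) := by
      funext x
      rw [hR, Finset.sum_apply]
    rw [h1]
    exact (intPart S).sum_mem fun γ _ => hinv γ _ (hρ1 _)
  have hRid : ∀ u ∈ intPart S, ∀ x, R u x = (Nat.card G : ℤ) * u x := by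
    intro u hu x
    rw [hR]
    have h1 : ∀ γ : G, ρ (fun y => u (γ⁻¹ • y)) (γ • x) = u x := by
      intro γ
      rw [hρ2 _ (hinv γ⁻¹ u hu)]
      beta_reduce
      rw [inv_smul_smul]
    rw [sum_congr rfl fun γ _ => h1 γ, sum_const, card_univ, nsmul_eq_mul,
      Nat.card_eq_fintype_card]
  have hReq : ∀ (δ : G) u x, R (fun y => u (δ • y)) x = R u (δ • x) := by
    intro δ u x
    rw [hR, hR, ← Equiv.sum_comp (Equiv.mulRight δ)
      (fun γ : G => ρ (fun y => (fun y => u (δ • y)) (γ⁻¹ • y)) (γ • x))]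
    refine sum_congr rfl fun γ _ => ?_
    rw [Equiv.coe_mulRight]
    beta_reduce
    simp only [mul_inv_rev, mul_smul, smul_inv_smul]
  refine ⟨R (Pi.single x₀ 1), hRS _, fun u hu x => ?_⟩
  have h1 : ∀ γ : G, R (Pi.single x₀ 1) (γ • x) = R (Pi.single (γ⁻¹ • x₀) 1) x := by
    intro γ
    rw [← hReq]
    have h2 : (fun y => (Pi.single x₀ 1 : X → ℤ) (γ • y)) = Pi.single (γ⁻¹ • x₀) 1 := by
      funext y
      by_cases h : γ • y = x₀
      · rw [h, Pi.single_eq_same, ← h, inv_smul_smul, Pi.single_eq_same]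
      · rw [Pi.single_eq_of_ne h, Pi.single_eq_of_ne]
        intro h'
        apply h
        rw [h', smul_inv_smul]
    rw [h2]
  have h2 : ∑ γ : G, u (γ⁻¹ • x₀) * R (Pi.single x₀ 1) (γ • x) =
      ∑ γ : G, u (γ • x₀) * R (Pi.single (γ • x₀) 1) x := by
    rw [sum_congr rfl fun γ _ => by rw [h1 γ], ← Equiv.sum_comp (Equiv.inv G)]
    refine sum_congr rfl fun γ _ => ?_
    rw [Equiv.inv_apply, inv_inv]
  rw [h2, sum_orbit (G := G) x₀ (card_fiber' x₀) (fun y => u y * R (Pi.single y 1) x)]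
  have h3 : ∑ y, u y * R (Pi.single y 1) x = R u x := by
    have h4 : u = ∑ y, u y • (Pi.single y 1 : X → ℤ) := by
      funext z
      rw [Finset.sum_apply, Finset.sum_eq_single z]
      · rw [Pi.smul_apply, Pi.single_eq_same, smul_eq_mul, mul_one]
      · intro y _ hy
        rw [Pi.smul_apply, Pi.single_eq_of_ne (Ne.symm hy), smul_zero]
      · intro h
        exact absurd (mem_univ _) h
    conv_rhs => rw [h4]
    rw [map_sum, Finset.sum_apply]
    exact sum_congr rfl fun y _ => by rw [map_smul, Pi.smul_apply, smul_eq_mul]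
  rw [h3, hRid u hu, nsmul_eq_mul]
  push_cast
  ring

end eta

end Pool.Agent.TH170.QE
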