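import Mathlib
import Pool.Agent.TH170.QE.Eta

/-!
# The dimension of the space of equivariant maps and the multiplicities modulo `p`
-/

set_option linter.unusedSectionVars false
set_option linter.unusedVariables false

namespace Pool.Agent.TH170.QE

open Finset Module Pool.Agent.TH170.MF Pool.Agent.TH170.QC

/-- The equivariant linear maps from `S` to `S'`. -/
def homs (G : Type*) {X : Type*} [Group G] [MulAction G X] (S S' : Submodule ℚ (X → ℚ)) :
    Submodule ℚ (S →ₗ[ℚ] (X → ℚ)) where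
  carrier := {A | (∀ s, A s ∈ S') ∧ ∀ (γ : G) (s t : S),
    (∀ x, (t : X → ℚ) x = (s : X → ℚ) (γ • x)) → ∀ x, A t x = A s (γ • x)}
  zero_mem' := ⟨fun s => S'.zero_mem, fun γ s t h x => rfl⟩
  add_mem' := by
    rintro A B ⟨h1, h2⟩ ⟨h3, h4⟩
    refine ⟨fun s => S'.add_mem (h1 s) (h3 s), fun γ s t h x => ?_⟩
    rw [LinearMap.add_apply, LinearMap.add_apply, Pi.add_apply, Pi.add_apply, h2 γ s t h x,
      h4 γ s t h x]
  smul_mem' := by
    rintro r A ⟨h1, h2⟩
    refine ⟨fun s => S'.smul_mem r (h1 s), fun γ s t h x => ?_⟩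
    rw [LinearMap.smul_apply, LinearMap.smul_apply, Pi.smul_apply, Pi.smul_apply, h2 γ s t h x]

section rational

variable {G X : Type*} [Group G] [Fintype G] [MulAction G X] [Fintype X] [DecidableEq X]
  [MulAction.IsPretransitive G X]

/-- The data given by the averaged retraction. -/
structure IsEta (x₀ : X) (S : Submodule ℚ (X → ℚ)) (e : X → ℤ) (N : ℕ) : Prop where
  mem : e ∈ intPart S
  sum : ∀ u ∈ intPart S, ∀ x, ∑ γ : G, u (γ⁻¹ • x₀) * e (γ • x) = (N : ℤ) * u x

theorem exists_isEta (x₀ : X) {S : Submodule ℚ (X → ℚ)} (hS : Invariant G S) :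
    ∃ e, IsEta (G := G) x₀ S e (Nat.card G * stabCard G x₀) := by
  obtain ⟨e, he, h⟩ := exists_eta x₀ hS
  exact ⟨e, he, h⟩

theorem IsEta.sum_rat {x₀ : X} {S : Submodule ℚ (X → ℚ)} {e : X → ℤ} {N : ℕ}
    (he : IsEta (G := G) x₀ S e N) {s : X → ℚ} (hs : s ∈ S) (x : X) :
    ∑ γ : G, s (γ⁻¹ • x₀) * (e (γ • x) : ℚ) = N * s x := by
  obtain ⟨M, hM, u, hu, hus⟩ := exists_multiple hs
  have hM' : (M : ℚ) ≠ 0 := by exact_mod_cast hM
  have h1 := he.sum u hu x
  have h2 : ∑ γ : G, (u (γ⁻¹ • x₀) : ℚ) * (e (γ • x) : ℚ) = N * u x := by exact_mod_cast h1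
  have h3 : ∀ y, (u y : ℚ) = M * s y := fun y => congrFun hus y
  simp only [h3, mul_assoc] at h2
  rw [← mul_sum, mul_left_comm] at h2
  exact mul_left_cancel₀ hM' h2

theorem coeff_theta {R : Type*} [CommRing R] (x₀ : X) (u : X → R) (γ : G) :
    (theta x₀ u : MonoidAlgebra R G).coeff γ = u (γ⁻¹ • x₀) := by
  rw [theta, coeff_el]

theorem IsEta.quasi {x₀ : X} {S : Submodule ℚ (X → ℚ)} {e : X → ℤ} {N : ℕ}
    (he : IsEta (G := G) x₀ S e N) {u : X → ℤ} (hu : u ∈ intPart S) :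
    (theta x₀ e : MonoidAlgebra ℤ G) * theta x₀ u = N • theta x₀ u := by
  rw [theta_mul]
  have h1 : act e (theta x₀ u : MonoidAlgebra ℤ G) = N • u := by
    funext x
    rw [act, Pi.smul_apply, nsmul_eq_mul, ← he.sum u hu x]
    exact sum_congr rfl fun γ _ => by rw [coeff_theta]
  rw [h1]
  ext γ
  rw [coeff_theta, MonoidAlgebra.coeff_smul, Finsupp.smul_apply, coeff_theta, Pi.smul_apply]

theorem finrank_fixQ_eta (x₀ : X) {S S' : Submodule ℚ (X → ℚ)} (hS : Invariant G S)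
    (hS' : Invariant G S') {e : X → ℤ} {N : ℕ} (hN : N ≠ 0) (he : IsEta (G := G) x₀ S e N) :
    finrank ℚ (fixQ S' (theta x₀ e : MonoidAlgebra ℤ G) N) = finrank ℚ (homs G S S') := by
  classical
  have hN' : (N : ℚ) ≠ 0 := by exact_mod_cast hN
  let ê : S := ⟨fun x => (e x : ℚ), he.mem⟩
  let êg : G → S := fun γ => ⟨fun x => (e (γ • x) : ℚ), hS γ _ he.mem⟩
  have hsum : ∀ s : S, (N : ℚ) • s = ∑ γ : G, (s : X → ℚ) (γ⁻¹ • x₀) • êg γ := by
    intro s
    apply Subtype.ext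
    funext x
    rw [Submodule.coe_smul, Submodule.coe_sum, Finset.sum_apply, Pi.smul_apply, smul_eq_mul,
      ← he.sum_rat s.2 x]
    rfl
  have hA : ∀ A ∈ homs G S S', ∀ (s : S) x,
      (N : ℚ) * A s x = ∑ γ : G, (s : X → ℚ) (γ⁻¹ • x₀) * A ê (γ • x) := by
    intro A hA s x
    have h1 := congrFun (congrArg A (hsum s)) x
    rw [map_smul, Pi.smul_apply, smul_eq_mul, map_sum, Finset.sum_apply] at h1
    rw [h1]
    refine sum_congr rfl fun γ _ => ?_
    rw [map_smul, Pi.smul_apply, smul_eq_mul, hA.2 γ ê (êg γ) (fun x => rfl) x]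
  let Ψ : homs G S S' →ₗ[ℚ] fixQ S' (theta x₀ e : MonoidAlgebra ℤ G) N :=
    { toFun := fun A => ⟨A.1 ê, A.2.1 ê, fun x => by
        rw [hA A.1 A.2 ê x]
        exact sum_congr rfl fun γ _ => by rw [coeff_theta]⟩
      map_add' := fun A B => rfl
      map_smul' := fun r A => rfl }
  have hinj : Function.Injective Ψ := by
    intro A B h0
    have h1 : A.1 ê = B.1 ê := congrArg Subtype.val h0
    apply Subtype.ext
    refine LinearMap.ext fun s => ?_
    funext x
    have h2 := hA A.1 A.2 s x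
    rw [h1, ← hA B.1 B.2 s x] at h2
    exact mul_left_cancel₀ hN' h2
  have hsurj : Function.Surjective Ψ := by
    rintro ⟨w, hw, hfix⟩
    let A : S →ₗ[ℚ] (X → ℚ) :=
      { toFun := fun s x => (N : ℚ)⁻¹ * ∑ γ : G, (s : X → ℚ) (γ⁻¹ • x₀) * w (γ • x)
        map_add' := by
          intro s t
          funext x
          simp only [Submodule.coe_add, Pi.add_apply, add_mul, sum_add_distrib, mul_add]
        map_smul' := by
          intro r s
          funext x
          simp only [Submodule.coe_smul, Pi.smul_apply, smul_eq_mul, RingHom.id_apply, mul_sum]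
          exact sum_congr rfl fun γ _ => by ring }
    have hA' : ∀ (s : S) x, A s x = (N : ℚ)⁻¹ * ∑ γ : G, (s : X → ℚ) (γ⁻¹ • x₀) * w (γ • x) :=
      fun s x => rfl
    refine ⟨⟨A, fun s => ?_, fun δ s t hst x => ?_⟩, ?_⟩
    · have h1 : A s = (N : ℚ)⁻¹ • ∑ γ : G, (s : X → ℚ) (γ⁻¹ • x₀) • fun x => w (γ • x) := by
        funext x
        rw [hA', Pi.smul_apply, Finset.sum_apply]
        rfl
      rw [h1]
      exact S'.smul_mem _ (S'.sum_mem fun γ _ => S'.smul_mem _ (hS' γ _ hw))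
    · rw [hA', hA']
      congr 1
      rw [← Equiv.sum_comp (Equiv.mulRight δ)
        (fun γ : G => (t : X → ℚ) (γ⁻¹ • x₀) * w (γ • x))]
      refine sum_congr rfl fun γ _ => ?_
      rw [Equiv.coe_mulRight]
      beta_reduce
      rw [hst, mul_inv_rev, mul_smul, smul_inv_smul, mul_smul]
    · apply Subtype.ext
      funext x
      change A ê x = w x
      rw [hA']
      have h1 : ∑ γ : G, (ê : X → ℚ) (γ⁻¹ • x₀) * w (γ • x) = N * w x := by
        rw [← hfix x]
        exact sum_congr rfl fun γ _ => by rw [coeff_theta]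
      rw [h1, inv_mul_cancel_left₀ hN']
  exact (LinearEquiv.finrank_eq (LinearEquiv.ofBijective Ψ ⟨hinj, hsurj⟩)).symm

end rational

section modp

variable {p : ℕ} [Fact p.Prime] {G X : Type*} [Group G] [Fintype G] [MulAction G X] [Fintype X]
  [DecidableEq X] [MulAction.IsPretransitive G X] {n : ℕ} {D : Fin n → Type*} {d : Fin n → ℕ}
  [∀ i, Field (D i)] [∀ i, Algebra (ZMod p) (D i)] [∀ i, Module.Finite (ZMod p) (D i)]
  [∀ i, NeZero (d i)]
  (π : MonoidAlgebra (ZMod p) G ≃ₐ[ZMod p] Π i, Matrix (Fin (d i)) (Fin (d i)) (D i))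

theorem finrank_range_eta (x₀ : X) {S : Submodule ℚ (X → ℚ)} (hS : Invariant G S) {e : X → ℤ}
    {N : ℕ} (hN : ¬ p ∣ N) (he : IsEta (G := G) x₀ S e N) (i : Fin n) :
    finrank (D i) (LinearMap.range
      (π ((N : ZMod p)⁻¹ • red p G (theta x₀ e)) i).mulVecLin) = mult π x₀ hS i := by
  have hN' : (N : ZMod p) ≠ 0 := fun h => hN ((ZMod.natCast_eq_zero_iff _ _).1 h)
  have h1 : LinearMap.range (π ((N : ZMod p)⁻¹ • red p G (theta x₀ e)) i).mulVecLin =
      col π x₀ (stable_redSpace (p := p) hS) i := by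
    apply le_antisymm
    · rintro _ ⟨a, rfl⟩
      rw [Matrix.mulVecLin_apply, red_theta, ← theta_smul]
      exact mulVec_mem_col π x₀ (stable_redSpace hS) i
        ((redSpace p S).smul_mem _ ⟨e, he.mem, rfl⟩) a
    · rintro _ ⟨w, ⟨u, hu, rfl⟩, rfl⟩
      refine ⟨(π (theta x₀ fun y => ((u y : ℤ) : ZMod p)) i).mulVec (Pi.single 0 1), ?_⟩
      rw [Matrix.mulVecLin_apply, Matrix.mulVec_mulVec, ← Pi.mul_apply, ← map_mul,
        ← red_theta, smul_mul_assoc, ← map_mul, he.quasi hu, red_smul_nat, smul_smul,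
        inv_mul_cancel₀ hN', one_smul]
  rw [h1]
  rfl

theorem finrank_homs (hpG : ¬ p ∣ Nat.card G) (x₀ : X) {S S' : Submodule ℚ (X → ℚ)}
    (hS : Invariant G S) (hS' : Invariant G S') :
    finrank ℚ (homs G S S') =
      ∑ i, finrank (ZMod p) (D i) * (mult π x₀ hS i * mult π x₀ hS' i) := by
  obtain ⟨e, he⟩ := exists_isEta (G := G) x₀ hS
  set N := Nat.card G * stabCard G x₀ with hN
  have hpN : ¬ p ∣ N := by
    intro h
    rcases (Fact.out : p.Prime).dvd_mul.1 h with h1 | h1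
    · exact hpG h1
    · exact stabCard_not_dvd hpG x₀ h1
  have hN0 : N ≠ 0 := by
    rintro h
    rw [h] at hpN
    exact hpN (dvd_zero p)
  rw [← finrank_fixQ_eta x₀ hS hS' hN0 he, finrank_fixQ π x₀ hS' (he.quasi he.mem) hpN]
  exact sum_congr rfl fun i _ => by rw [finrank_range_eta π x₀ hS hpN he]

/-- The multiplicities of spaces with the same dimensions of the spaces of equivariant maps. -/
theorem mult_eq (hpG : ¬ p ∣ Nat.card G) (x₀ : X) {S S' : Submodule ℚ (X → ℚ)}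
    (hS : Invariant G S) (hS' : Invariant G S')
    (h1 : finrank ℚ (homs G S S') = finrank ℚ (homs G S S))
    (h2 : finrank ℚ (homs G S S') = finrank ℚ (homs G S' S')) (i : Fin n) :
    mult π x₀ hS i = mult π x₀ hS' i := by
  have h3 := finrank_homs π hpG x₀ hS hS'
  have h4 := finrank_homs π hpG x₀ hS hS
  have h5 := finrank_homs π hpG x₀ hS' hS'
  set a := mult π x₀ hS with ha
  set b := mult π x₀ hS' with hb
  have h6 : ∑ i, (finrank (ZMod p) (D i) : ℤ) * ((a i : ℤ) - b i) ^ 2 = 0 := by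
    have e1 : ((∑ i, finrank (ZMod p) (D i) * (a i * b i) : ℕ) : ℤ) =
        ((∑ i, finrank (ZMod p) (D i) * (a i * a i) : ℕ) : ℤ) := by
      rw [← h3, ← h4, h1]
    have e2 : ((∑ i, finrank (ZMod p) (D i) * (a i * b i) : ℕ) : ℤ) =
        ((∑ i, finrank (ZMod p) (D i) * (b i * b i) : ℕ) : ℤ) := by
      rw [← h3, ← h5, h2]
    push_cast at e1 e2
    have e3 : ∑ i, (finrank (ZMod p) (D i) : ℤ) * ((a i : ℤ) - b i) ^ 2 =
        ∑ i, (finrank (ZMod p) (D i) : ℤ) * ((a i : ℤ) * a i) +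
        ∑ i, (finrank (ZMod p) (D i) : ℤ) * ((b i : ℤ) * b i) -
        2 * ∑ i, (finrank (ZMod p) (D i) : ℤ) * ((a i : ℤ) * b i) := by
      rw [mul_sum, ← sum_add_distrib, ← sum_sub_distrib]
      exact sum_congr rfl fun i _ => by ring
    rw [e3, ← e1, ← e2]
    ring
  have h7 := (sum_eq_zero_iff_of_nonneg (fun i _ => by positivity)).1 h6 i (mem_univ i)
  have h8 : (finrank (ZMod p) (D i) : ℤ) ≠ 0 := by
    have : 0 < finrank (ZMod p) (D i) := finrank_pos
    exact_mod_cast this.ne'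
  have h9 := (mul_eq_zero.1 h7).resolve_left h8
  have h10 : (a i : ℤ) - b i = 0 := by
    exact pow_eq_zero_iff (two_ne_zero) |>.1 h9
  omega

end modp

end Pool.Agent.TH170.QE
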