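import Mathlib
import Pool.Agent.TH170.QE.Hom

/-!
# The fixed vectors of the components of a stable space
-/

set_option linter.unusedSectionVars false
set_option linter.unusedVariables false

namespace Pool.Agent.TH170.QE

open Finset Module Pool.Agent.TH170.MF Pool.Agent.TH170.QC

section eps

variable {G X : Type*} [Group G] [Fintype G] [MulAction G X] [Fintype X] [DecidableEq X]

/-- The product of the sum over the stabilizer with `1 - c`. -/
noncomputable def eps (R : Type*) [CommRing R] (x₀ : X) (c : G) : MonoidAlgebra R G :=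
  (∑ γ ∈ univ.filter (fun γ : G => γ • x₀ = x₀), MonoidAlgebra.single γ 1) *
    (1 - MonoidAlgebra.single c 1)

variable {R R' : Type*} [CommRing R] [CommRing R'] {x₀ : X} {c : G}

theorem map_eps (f : R →+* R') :
    MonoidAlgebra.mapRingHom G f (eps R x₀ c) = eps R' x₀ c := by
  rw [eps, eps, map_mul, map_sub, map_one, map_sum, MonoidAlgebra.mapRingHom_single, map_one]
  congr 1
  exact sum_congr rfl fun γ _ => by rw [MonoidAlgebra.mapRingHom_single, map_one]

theorem single_mul_eps {h : G} (hh : h • x₀ = x₀) :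
    MonoidAlgebra.single h 1 * eps R x₀ c = eps R x₀ c := by
  rw [eps, ← mul_assoc, mul_sum]
  congr 1
  refine Finset.sum_bij' (fun γ _ => h * γ) (fun γ _ => h⁻¹ * γ) ?_ ?_ ?_ ?_ ?_
  · intro γ hγ
    rw [mem_filter] at hγ ⊢
    exact ⟨mem_univ _, by rw [mul_smul, hγ.2, hh]⟩
  · intro γ hγ
    rw [mem_filter] at hγ ⊢
    refine ⟨mem_univ _, ?_⟩
    rw [mul_smul, hγ.2, inv_smul_eq_iff, hh]
  · intro γ _
    rw [inv_mul_cancel_left]
  · intro γ _
    rw [mul_inv_cancel_left]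
  · intro γ _
    rw [MonoidAlgebra.single_mul_single, one_mul]

theorem single_comm (hcen : ∀ x, c * x = x * c) (y : MonoidAlgebra R G) :
    MonoidAlgebra.single c 1 * y = y * MonoidAlgebra.single c 1 := by
  ext γ
  rw [MonoidAlgebra.coeff_single_mul_apply, MonoidAlgebra.coeff_mul_single_apply, one_mul, mul_one]
  have h1 : c⁻¹ * γ = γ * c⁻¹ := by
    rw [inv_mul_eq_iff_eq_mul, ← mul_assoc, hcen, mul_inv_cancel_right]
  rw [h1]

theorem eps_mul_single (hcen : ∀ x, c * x = x * c) {h : G} (hh : h • x₀ = x₀) :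
    eps R x₀ c * MonoidAlgebra.single h 1 = eps R x₀ c := by
  have h1 : (1 - MonoidAlgebra.single c 1 : MonoidAlgebra R G) * MonoidAlgebra.single h 1 =
      MonoidAlgebra.single h 1 * (1 - MonoidAlgebra.single c 1) := by
    rw [sub_mul, mul_sub, one_mul, mul_one, single_comm hcen]
  rw [eps, mul_assoc, h1, ← mul_assoc, sum_mul]
  congr 1
  refine Finset.sum_bij' (fun γ _ => γ * h) (fun γ _ => γ * h⁻¹) ?_ ?_ ?_ ?_ ?_
  · intro γ hγ
    rw [mem_filter] at hγ ⊢
    exact ⟨mem_univ _, by rw [mul_smul, hh, hγ.2]⟩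
  · intro γ hγ
    rw [mem_filter] at hγ ⊢
    refine ⟨mem_univ _, ?_⟩
    have h1 : h⁻¹ • x₀ = x₀ := by rw [inv_smul_eq_iff, hh]
    rw [mul_smul, h1, hγ.2]
  · intro γ _
    rw [mul_inv_cancel_right]
  · intro γ _
    rw [inv_mul_cancel_right]
  · intro γ _
    rw [MonoidAlgebra.single_mul_single, one_mul]

theorem c_mul_eps (hc : c * c = 1) (hcen : ∀ x, c * x = x * c) :
    MonoidAlgebra.single c 1 * eps R x₀ c = - eps R x₀ c := by
  have h1 : (1 - MonoidAlgebra.single c 1 : MonoidAlgebra R G) * MonoidAlgebra.single c 1 =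
      - (1 - MonoidAlgebra.single c 1) := by
    rw [sub_mul, one_mul, MonoidAlgebra.single_mul_single, hc, one_mul, neg_sub,
      MonoidAlgebra.one_def]
  rw [single_comm hcen, eps, mul_assoc, h1, mul_neg]

theorem eps_mul_eps (hc : c * c = 1) (hcen : ∀ x, c * x = x * c) :
    eps R x₀ c * eps R x₀ c = (2 * stabCard G x₀) • eps R x₀ c := by
  have h1 : (1 - MonoidAlgebra.single c 1 : MonoidAlgebra R G) * eps R x₀ c =
      2 • eps R x₀ c := by
    rw [sub_mul, one_mul, c_mul_eps hc hcen, sub_neg_eq_add, two_nsmul]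
  have h0 : eps R x₀ c * eps R x₀ c =
      (∑ γ ∈ univ.filter (fun γ : G => γ • x₀ = x₀), MonoidAlgebra.single γ 1) *
        ((1 - MonoidAlgebra.single c 1) * eps R x₀ c) := by
    rw [← mul_assoc]
    rfl
  rw [h0, h1, sum_mul]
  have h2 : ∀ γ ∈ univ.filter (fun γ : G => γ • x₀ = x₀),
      (MonoidAlgebra.single γ 1 : MonoidAlgebra R G) * (2 • eps R x₀ c) = 2 • eps R x₀ c := by
    intro γ hγ
    rw [mul_smul_comm, single_mul_eps (mem_filter.1 hγ).2]
  rw [sum_congr rfl h2, sum_const, smul_smul, mul_comm]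
  rfl

theorem act_single (u : X → R) (γ : G) :
    act u (MonoidAlgebra.single γ 1) = fun x => u (γ • x) := by
  classical
  funext x
  rw [act, Finset.sum_eq_single γ]
  · rw [MonoidAlgebra.coeff_single, Finsupp.single_eq_same, one_mul]
  · intro δ _ hδ
    rw [MonoidAlgebra.coeff_single, Finsupp.single_eq_of_ne hδ, zero_mul]
  · intro h5
    exact absurd (mem_univ _) h5

variable [MulAction.IsPretransitive G X]

theorem fixQ_eps_le (hcen : ∀ x, c * x = x * c) (x₀ : X) {S : Submodule ℚ (X → ℚ)} {N : ℕ}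
    (hN : N ≠ 0) : fixQ S (eps ℤ x₀ c) N ≤ fixedPart G x₀ S := by
  have hX : Nonempty X := ⟨x₀⟩
  have hN' : (N : ℚ) ≠ 0 := by exact_mod_cast hN
  rintro s ⟨hs, hfix⟩
  refine ⟨hs, fun h hh x => ?_⟩
  have h1 : act s (eps ℚ x₀ c) = (N : ℚ) • s := by
    funext y
    rw [act, Pi.smul_apply, smul_eq_mul, ← hfix y]
    refine sum_congr rfl fun γ _ => ?_
    rw [← map_eps (Int.castRingHom ℚ), MonoidAlgebra.coeff_mapRingHom]
    rfl
  have h2 : act (act s (eps ℚ x₀ c)) (MonoidAlgebra.single h 1) = act s (eps ℚ x₀ c) := by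
    rw [← act_mul, eps_mul_single hcen hh]
  rw [h1, act_single] at h2
  have h3 := congrFun h2 x
  beta_reduce at h3
  rw [Pi.smul_apply, Pi.smul_apply, smul_eq_mul, smul_eq_mul] at h3
  exact mul_left_cancel₀ hN' h3

end eps

variable {p : ℕ} [Fact p.Prime] {G X : Type*} [Group G] [Fintype G] [MulAction G X] [Fintype X]
  [DecidableEq X] [MulAction.IsPretransitive G X] {n : ℕ} {D : Fin n → Type*} {d : Fin n → ℕ}
  [∀ i, Field (D i)] [∀ i, Algebra (ZMod p) (D i)] [∀ i, Module.Finite (ZMod p) (D i)]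
  [∀ i, NeZero (d i)]
  (π : MonoidAlgebra (ZMod p) G ≃ₐ[ZMod p] Π i, Matrix (Fin (d i)) (Fin (d i)) (D i))

theorem range_eps (hp : p ≠ 2) (hpG : ¬ p ∣ Nat.card G) {c : G} (hc : c * c = 1)
    (hcen : ∀ x, c * x = x * c) (x₀ : X) (i : Fin n) :
    LinearMap.range (π (((2 * stabCard G x₀ : ℕ) : ZMod p)⁻¹ • red p G (eps ℤ x₀ c)) i).mulVecLin =
      goodSpace π x₀ c i := by
  have h2N : ¬ p ∣ 2 * stabCard G x₀ := by
    intro h
    rcases (Fact.out : p.Prime).dvd_mul.1 h with h1 | h1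
    · exact hp ((Nat.prime_dvd_prime_iff_eq Fact.out Nat.prime_two).1 h1)
    · exact stabCard_not_dvd hpG x₀ h1
  have hN' : (((2 * stabCard G x₀ : ℕ)) : ZMod p) ≠ 0 := fun h =>
    h2N ((ZMod.natCast_eq_zero_iff _ _).1 h)
  set N := 2 * stabCard G x₀ with hN
  have hred : red p G (eps ℤ x₀ c) = eps (ZMod p) x₀ c := map_eps _
  rw [hred]
  apply le_antisymm
  · rintro _ ⟨a, rfl⟩
    rw [Matrix.mulVecLin_apply]
    refine ⟨fun h hh => ?_, ?_⟩
    · rw [Matrix.mulVec_mulVec, ← Pi.mul_apply, ← map_mul, mul_smul_comm, single_mul_eps hh]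
    · rw [Matrix.mulVec_mulVec, ← Pi.mul_apply, ← map_mul, mul_smul_comm, c_mul_eps hc hcen,
        smul_neg, map_neg, Pi.neg_apply, Matrix.neg_mulVec]
  · rintro v ⟨h1, h2⟩
    refine ⟨v, ?_⟩
    rw [Matrix.mulVecLin_apply, map_smul, Pi.smul_apply, Matrix.smul_mulVec]
    have h3 : (π (1 - MonoidAlgebra.single c 1) i).mulVec v = (2 : ℕ) • v := by
      rw [map_sub, Pi.sub_apply, Matrix.sub_mulVec, h2, map_one, Pi.one_apply, Matrix.one_mulVec,
        sub_neg_eq_add, two_nsmul]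
    have h4 : (π (eps (ZMod p) x₀ c) i).mulVec v = (N : ZMod p) • v := by
      rw [eps, map_mul, Pi.mul_apply, ← Matrix.mulVec_mulVec, h3, map_sum, Finset.sum_apply,
        Matrix.sum_mulVec]
      have h5 : ∀ γ ∈ univ.filter (fun γ : G => γ • x₀ = x₀),
          (π (MonoidAlgebra.single γ 1) i).mulVec ((2 : ℕ) • v) = (2 : ℕ) • v := by
        intro γ hγ
        rw [Matrix.mulVec_smul, h1 γ (mem_filter.1 hγ).2]
      rw [sum_congr rfl h5, sum_const, smul_smul, Nat.cast_smul_eq_nsmul, hN, mul_comm]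
      rfl
    rw [h4, smul_smul, inv_mul_cancel₀ hN', one_smul]

/-- The number of the fixed vectors, in terms of the components. -/
theorem sum_good_mult_le (hp : p ≠ 2) (hpG : ¬ p ∣ Nat.card G) {c : G} (hc : c * c = 1)
    (hcen : ∀ x, c * x = x * c) (x₀ : X) {S : Submodule ℚ (X → ℚ)} (hS : Invariant G S) :
    ∑ i, finrank (ZMod p) (D i) * (finrank (D i) (goodSpace π x₀ c i) * mult π x₀ hS i) ≤
      finrank ℚ (fixedPart G x₀ S) := by
  have h2N : ¬ p ∣ 2 * stabCard G x₀ := by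
    intro h
    rcases (Fact.out : p.Prime).dvd_mul.1 h with h1 | h1
    · exact hp ((Nat.prime_dvd_prime_iff_eq Fact.out Nat.prime_two).1 h1)
    · exact stabCard_not_dvd hpG x₀ h1
  have hN0 : 2 * stabCard G x₀ ≠ 0 := by
    rintro h
    rw [h] at h2N
    exact h2N (dvd_zero p)
  have h1 := finrank_fixQ π x₀ hS (eps_mul_eps (R := ℤ) (x₀ := x₀) hc hcen) h2N
  have h2 : finrank ℚ (fixQ S (eps ℤ x₀ c) (2 * stabCard G x₀)) ≤
      finrank ℚ (fixedPart G x₀ S) := Submodule.finrank_mono (fixQ_eps_le hcen x₀ hN0)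
  refine le_trans (le_of_eq ?_) h2
  rw [h1]
  exact sum_congr rfl fun i _ => by rw [range_eps π hp hpG hc hcen x₀ i]

end Pool.Agent.TH170.QE
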