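import Mathlib
import Pool.Agent.TH170.QE.Fix

/-!
# Counting the odd sign functions that kill independent families of vectors
-/

set_option linter.unusedSectionVars false
set_option linter.unusedVariables false

namespace Pool.Agent.TH170.QE

open Finset Module Pool.Agent.TH170.MF Pool.Agent.TH170.QC Pool.Agent.TH170.GC

variable {p : ℕ} [Fact p.Prime] {G X : Type*} [Group G] [Fintype G] [MulAction G X] [Fintype X]
  [DecidableEq X] [MulAction.IsPretransitive G X] {n : ℕ} {D : Fin n → Type*} {d : Fin n → ℕ}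
  [∀ i, Field (D i)] [∀ i, Algebra (ZMod p) (D i)] [∀ i, Module.Finite (ZMod p) (D i)]
  [∀ i, NeZero (d i)]
  (π : MonoidAlgebra (ZMod p) G ≃ₐ[ZMod p] Π i, Matrix (Fin (d i)) (Fin (d i)) (D i))

theorem exists_matrix {F : Type*} [Field F] {k m : ℕ} {v : Fin m → Fin k → F}
    (hv : LinearIndependent F v) (w : Fin m → Fin k → F) :
    ∃ M : Matrix (Fin k) (Fin k) F, ∀ j, M.mulVec (v j) = w j := by
  classical
  obtain ⟨φ, hφ⟩ := LinearMap.exists_extend
    ((Basis.span hv).constr F w : Submodule.span F (Set.range v) →ₗ[F] (Fin k → F))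
  refine ⟨LinearMap.toMatrix' φ, fun j => ?_⟩
  rw [LinearMap.toMatrix'_mulVec]
  have h1 := congrArg (fun F => F (Basis.span hv j)) hφ
  beta_reduce at h1
  rw [LinearMap.comp_apply, Basis.constr_basis, Submodule.subtype_apply, Basis.span_apply] at h1
  exact h1

theorem finrank_families (m : Fin n → ℕ) :
    finrank (ZMod p) (∀ i, Fin (m i) → Fin (d i) → D i) =
      ∑ i, finrank (ZMod p) (D i) * (d i * m i) := by
  rw [Module.finrank_pi_fintype]
  refine sum_congr rfl fun i _ => ?_
  rw [Module.finrank_pi_fintype, sum_const, card_univ, Fintype.card_fin, smul_eq_mul,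
    Module.finrank_pi_fintype, sum_const, card_univ, Fintype.card_fin, smul_eq_mul]
  ring

/-- The number of odd sign functions that kill a given family of independent vectors. -/
theorem ncard_family (hp : p ≠ 2) (hpG : ¬ p ∣ Nat.card G) {c : G} (hc : c * c = 1)
    (hfree : ∀ x : X, c • x ≠ x) (hcen : ∀ x, c * x = x * c) {g : ℕ}
    (hg : Fintype.card X = 2 * g) (x₀ : X) (m : Fin n → ℕ)
    (hdim : 0 < ∑ i, finrank (ZMod p) (D i) * (d i * m i))
    (v : ∀ i, Fin (m i) → Fin (d i) → D i) (hv : ∀ i j, v i j ∈ goodSpace π x₀ c i)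
    (hli : ∀ i, LinearIndependent (D i) (v i)) :
    (({f ∈ oddSigns X (fun x => c • x) |
      ∀ i j, (π (hat x₀ (fun x => ((f x : ℤ) : ZMod p))) i).mulVec (v i j) = 0}.ncard : ℕ) : ℝ) *
      p ^ (∑ i, finrank (ZMod p) (D i) * (d i * m i)) ≤
      2 ^ g * sig p ((g : ℝ) / ((∑ i, finrank (ZMod p) (D i) * (d i * m i) : ℕ) : ℝ)) ^
        (∑ i, finrank (ZMod p) (D i) * (d i * m i)) := by
  classical
  have hfr := finrank_families (p := p) (D := D) (d := d) m
  choose γx hγx using fun x : X => MulAction.exists_smul_eq G x₀ x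
  let L : X → (∀ i, Fin (m i) → Fin (d i) → D i) := fun x i j =>
    (π (MonoidAlgebra.single (γx x) 1) i).mulVec (v i j)
  have hLeq : ∀ γ : G, L (γ • x₀) =
      fun i j => (π (MonoidAlgebra.single γ 1) i).mulVec (v i j) := by
    intro γ
    funext i j
    have h1 : ((γx (γ • x₀))⁻¹ * γ) • x₀ = x₀ := by
      rw [mul_smul, inv_smul_eq_iff, hγx]
    have h2 := (hv i j).1 _ h1
    change (π (MonoidAlgebra.single (γx (γ • x₀)) 1) i).mulVec (v i j) = _
    conv_lhs => rw [← h2]
    rw [← single_mulVec, mul_inv_cancel_left]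
  let R : G → (∀ i, Fin (m i) → Fin (d i) → D i) →ₗ[ZMod p]
      (∀ i, Fin (m i) → Fin (d i) → D i) := fun γ =>
    { toFun := fun w i j => (π (MonoidAlgebra.single γ 1) i).mulVec (w i j)
      map_add' := fun w w' => by
        funext i j
        simp only [Pi.add_apply, Matrix.mulVec_add]
      map_smul' := fun r w => by
        funext i j
        simp only [Pi.smul_apply, Matrix.mulVec_smul, RingHom.id_apply] }
  have hL : ∀ (γ : G) x, L (γ • x) = R γ (L x) := by
    intro γ x
    have h1 : γ • x = (γ * γx x) • x₀ := by rw [mul_smul, hγx]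
    rw [h1, hLeq]
    funext i j
    exact single_mulVec π i _ _ _
  have hodd : ∀ x, L (c • x) = - L x := by
    intro x
    have h1 : c • x = (γx x * c) • x₀ := by rw [← hcen, mul_smul, hγx]
    rw [h1, hLeq]
    funext i j
    rw [single_mulVec, (hv i j).2, Matrix.mulVec_neg]
    rfl
  have hspan : Submodule.span (ZMod p) (Set.range L) = ⊤ := by
    rw [eq_top_iff]
    rintro w -
    choose M hM using fun i => exists_matrix (hli i) (w i)
    set y := π.symm M with hy
    have h2 : w = ∑ γ, y.coeff γ • L (γ • x₀) := by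
      funext i j
      rw [Finset.sum_apply, Finset.sum_apply]
      have h3 : (π y i).mulVec (v i j) = w i j := by
        rw [hy, AlgEquiv.apply_symm_apply]
        exact hM i j
      rw [← h3]
      conv_lhs => rw [eq_el y]
      rw [pi_el_mulVec]
      refine sum_congr rfl fun γ _ => ?_
      rw [hLeq]
      rfl
    rw [h2]
    exact Submodule.sum_mem _ fun γ _ => Submodule.smul_mem _ _ (Submodule.subset_span ⟨_, rfl⟩)
  have hnt : Nontrivial (∀ i, Fin (m i) → Fin (d i) → D i) := by
    apply Module.nontrivial_of_finrank_pos (R := ZMod p)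
    rw [hfr]
    exact hdim
  have h1 := QC.ncard_kill hc hfree hp hg L R hL hodd hspan
  rw [hfr] at h1
  have h2 : {f ∈ oddSigns X (fun x => c • x) |
      ∀ i j, (π (hat x₀ (fun x => ((f x : ℤ) : ZMod p))) i).mulVec (v i j) = 0} =
      {f ∈ oddSigns X (fun x => c • x) | ∑ x, ((f x : ℤ) : ZMod p) • L x = 0} := by
    ext f
    simp only [Set.mem_sep_iff]
    refine and_congr_right fun _ => ?_
    have hm0 : ((stabCard G x₀ : ℕ) : ZMod p) ≠ 0 := fun h =>
      stabCard_not_dvd hpG x₀ ((ZMod.natCast_eq_zero_iff _ _).1 h)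
    have h3 : (fun i j => (π (hat x₀ (fun x => ((f x : ℤ) : ZMod p))) i).mulVec (v i j)) =
        (stabCard G x₀ : ZMod p) • ∑ x, ((f x : ℤ) : ZMod p) • L x := by
      have h4 := sum_orbit (G := G) x₀ (card_fiber' x₀) (fun x => ((f x : ℤ) : ZMod p) • L x)
      rw [← Nat.cast_smul_eq_nsmul (ZMod p)] at h4
      rw [← h4]
      funext i j
      rw [Finset.sum_apply, Finset.sum_apply, hat, pi_el_mulVec]
      refine sum_congr rfl fun γ _ => ?_
      rw [Pi.smul_apply, Pi.smul_apply, hLeq]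
    constructor
    · intro h
      have h4 : (stabCard G x₀ : ZMod p) • ∑ x, ((f x : ℤ) : ZMod p) • L x = 0 := by
        rw [← h3]
        funext i j
        exact h i j
      exact (smul_eq_zero.1 h4).resolve_left hm0
    · intro h i j
      rw [h, smul_zero] at h3
      exact congrFun (congrFun h3 i) j
  rw [h2]
  exact h1

theorem card_frames_ge {F : Type*} [Field F] [Fintype F] {V : Type*} [AddCommGroup V] [Module F V]
    [Finite V] {p f m : ℕ} (hp : 2 ≤ p) (hf : 0 < f) (hF : Fintype.card F = p ^ f)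
    (hm : finrank F V = m) :
    (p - 1) ^ (f * (m * m)) ≤ Nat.card {s : Fin m → V // LinearIndependent F s} := by
  rw [card_linearIndependent (K := F) (V := V) (k := m) hm.ge, hF, hm]
  have h1 : ∀ i : Fin m, (p - 1) ^ (f * m) ≤ (p ^ f) ^ m - (p ^ f) ^ (i : ℕ) := by
    intro i
    obtain ⟨k, rfl⟩ : ∃ k, m = k + 1 := ⟨m - 1, by have := i.2; omega⟩
    have h2 : (p ^ f) ^ (i : ℕ) ≤ (p ^ f) ^ k :=
      Nat.pow_le_pow_right (Nat.pos_of_ne_zero (pow_ne_zero _ (by omega))) (by have := i.2; omega)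
    have h3 : (p ^ f) ^ (k + 1) - (p ^ f) ^ k = (p ^ f) ^ k * (p ^ f - 1) := by
      rw [pow_succ, Nat.mul_sub, mul_one]
    have h4 : (p - 1) ^ f ≤ p ^ f - 1 := sub_one_pow_le p (by omega) hf
    calc (p - 1) ^ (f * (k + 1)) = ((p - 1) ^ f) ^ k * (p - 1) ^ f := by
          rw [mul_add, mul_one, pow_add, pow_mul]
      _ ≤ (p ^ f) ^ k * (p ^ f - 1) :=
          Nat.mul_le_mul (Nat.pow_le_pow_left (Nat.pow_le_pow_left (by omega) f) k) h4
      _ = (p ^ f) ^ (k + 1) - (p ^ f) ^ k := h3.symm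
      _ ≤ _ := Nat.sub_le_sub_left h2 _
  calc (p - 1) ^ (f * (m * m)) = ∏ i : Fin m, (p - 1) ^ (f * m) := by
        rw [prod_const, card_univ, Fintype.card_fin, ← pow_mul]
        congr 1
        ring
    _ ≤ _ := prod_le_prod' fun i _ => h1 i

/-- The number of the odd sign functions that kill spaces of given dimensions. -/
theorem ncard_spaces (hp : p ≠ 2) (hpG : ¬ p ∣ Nat.card G) {c : G} (hc : c * c = 1)
    (hfree : ∀ x : X, c • x ≠ x) (hcen : ∀ x, c * x = x * c) {g : ℕ}
    (hg : Fintype.card X = 2 * g) (x₀ : X) (m : Fin n → ℕ)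
    (hdim : 0 < ∑ i, finrank (ZMod p) (D i) * (d i * m i)) :
    (({f ∈ oddSigns X (fun x => c • x) |
      ∃ U : ∀ i, Submodule (D i) (Fin (d i) → D i), ∀ i, U i ≤ goodSpace π x₀ c i ∧
        finrank (D i) (U i) = m i ∧ ∀ v ∈ U i,
          (π (hat x₀ (fun x => ((f x : ℤ) : ZMod p))) i).mulVec v = 0}.ncard : ℕ) : ℝ) *
      ((p - 1 : ℕ) : ℝ) ^ (∑ i, finrank (ZMod p) (D i) * (m i * m i)) *
      p ^ (∑ i, finrank (ZMod p) (D i) * (d i * m i)) ≤
      2 ^ g * sig p ((g : ℝ) / ((∑ i, finrank (ZMod p) (D i) * (d i * m i) : ℕ) : ℝ)) ^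
        (∑ i, finrank (ZMod p) (D i) * (d i * m i)) *
      (p : ℝ) ^ (∑ i, finrank (ZMod p) (D i) * (finrank (D i) (goodSpace π x₀ c i) * m i)) := by
  classical
  have hDfin : ∀ i, Finite (D i) := fun i => Module.finite_of_finite (ZMod p)
  have hDft : ∀ i, Fintype (D i) := fun i => Fintype.ofFinite _
  have hcardD : ∀ i, Fintype.card (D i) = p ^ finrank (ZMod p) (D i) := by
    intro i
    rw [Module.card_eq_pow_finrank (K := ZMod p) (V := D i), ZMod.card]
  set dm := ∑ i, finrank (ZMod p) (D i) * (d i * m i) with hdm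
  set σ := sig p ((g : ℝ) / (dm : ℝ)) with hσ
  set h' := ∑ i, finrank (ZMod p) (D i) * (finrank (D i) (goodSpace π x₀ c i) * m i) with hh'
  let Fs : Finset (X → ℤ) := (finite_oddSigns (X := X) (fun x => c • x)).toFinset
  let kil : (X → ℤ) → (∀ i, Fin (m i) → Fin (d i) → D i) → Prop := fun f v =>
    ∀ i j, (π (hat x₀ (fun x => ((f x : ℤ) : ZMod p))) i).mulVec (v i j) = 0
  let V : Finset (∀ i, Fin (m i) → Fin (d i) → D i) := univ.filter (fun v =>
    (∀ i j, v i j ∈ goodSpace π x₀ c i) ∧ ∀ i, LinearIndependent (D i) (v i))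
  set A := {f ∈ oddSigns X (fun x => c • x) |
      ∃ U : ∀ i, Submodule (D i) (Fin (d i) → D i), ∀ i, U i ≤ goodSpace π x₀ c i ∧
        finrank (D i) (U i) = m i ∧ ∀ v ∈ U i,
          (π (hat x₀ (fun x => ((f x : ℤ) : ZMod p))) i).mulVec v = 0} with hA
  have hAfin : A.Finite := (finite_oddSigns (X := X) (fun x => c • x)).subset fun f hf => hf.1
  let N : Finset (X → ℤ) := hAfin.toFinset
  have hN : A.ncard = N.card := Set.ncard_eq_toFinset_card A hAfin
  set Q : ℕ := (p - 1) ^ (∑ i, finrank (ZMod p) (D i) * (m i * m i)) with hQ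
  have hp2 : 2 ≤ p := (Fact.out : p.Prime).two_le
  -- double counting
  have h1 : N.card * Q ≤ ∑ v ∈ V, (Fs.filter (fun f => kil f v)).card := by
    have h2 : ∑ v ∈ V, (Fs.filter (fun f => kil f v)).card =
        ∑ f ∈ Fs, (V.filter (fun v => kil f v)).card := by
      simp only [card_filter]
      rw [sum_comm]
    have hNF : N ⊆ Fs := by
      intro f hf
      have hf' : f ∈ A := hAfin.mem_toFinset.1 hf
      exact (Set.Finite.mem_toFinset _).2 hf'.1
    rw [h2, ← smul_eq_mul, ← sum_const]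
    refine (sum_le_sum fun f hf => ?_).trans (sum_le_sum_of_subset hNF)
    have hf' : f ∈ A := hAfin.mem_toFinset.1 hf
    obtain ⟨-, U, hU⟩ := hf'
    have h3 : Q ≤ Nat.card (∀ i, {s : Fin (m i) → U i // LinearIndependent (D i) s}) := by
      rw [Nat.card_pi, hQ, ← prod_pow_eq_pow_sum]
      exact prod_le_prod' fun i _ => card_frames_ge hp2 finrank_pos (hcardD i) (hU i).2.1
    refine h3.trans ?_
    have h6 : ∀ i, Finite {s : Fin (m i) → U i // LinearIndependent (D i) s} :=
      fun i => inferInstance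
    rw [← Fintype.card_coe, ← Nat.card_eq_fintype_card]
    refine Nat.card_le_card_of_injective (fun s => (⟨fun i j => ((s i).1 j : Fin (d i) → D i),
      ?_⟩ : V.filter (fun v => kil f v))) ?_
    · rw [mem_filter]
      refine ⟨mem_filter.2 ⟨mem_univ _, fun i j => (hU i).1 ((s i).1 j).2, fun i => ?_⟩,
        fun i j => (hU i).2.2 _ ((s i).1 j).2⟩
      exact (s i).2.map' (U i).subtype (Submodule.ker_subtype _)
    · intro s t hst
      funext i
      apply Subtype.ext
      funext j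
      apply Subtype.ext
      have h7 := congrArg Subtype.val hst
      exact congrFun (congrFun h7 i) j
  have h2 : ∀ v ∈ V, (((Fs.filter (fun f => kil f v)).card : ℕ) : ℝ) * p ^ dm ≤
      2 ^ g * σ ^ dm := by
    intro v hv
    have hv' := (mem_filter.1 hv).2
    have h3 := ncard_family π hp hpG hc hfree hcen hg x₀ m hdim v hv'.1 hv'.2
    refine le_trans (le_of_eq ?_) h3
    congr 2
    rw [← Set.ncard_coe_finset]
    congr 1
    ext f
    simp only [Fs, kil, coe_filter, Set.Finite.mem_toFinset, Set.mem_ofPred_eq]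
  have hVcard : V.card ≤ p ^ h' := by
    have h5 : Nat.card (∀ i, Fin (m i) → goodSpace π x₀ c i) = p ^ h' := by
      rw [Nat.card_pi, hh', ← prod_pow_eq_pow_sum]
      refine prod_congr rfl fun i _ => ?_
      rw [Nat.card_fun, finrank_restrict (p := p) i, ← pow_mul, Nat.card_eq_fintype_card,
        Fintype.card_fin]
      congr 1
      ring
    rw [← h5, ← Fintype.card_coe, ← Nat.card_eq_fintype_card]
    refine Nat.card_le_card_of_injective (fun v : V => fun i j =>
      (⟨v.1 i j, (mem_filter.1 v.2).2.1 i j⟩ : goodSpace π x₀ c i)) ?_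
    intro v w h
    apply Subtype.ext
    funext i j
    exact congrArg Subtype.val (congrFun (congrFun h i) j)
  rw [hN]
  have h4 : ((N.card * Q : ℕ) : ℝ) ≤
      ∑ v ∈ V, (((Fs.filter (fun f => kil f v)).card : ℕ) : ℝ) := by
    exact_mod_cast h1
  rw [Nat.cast_mul] at h4
  have hQc : (Q : ℝ) = ((p - 1 : ℕ) : ℝ) ^ (∑ i, finrank (ZMod p) (D i) * (m i * m i)) := by
    rw [hQ, Nat.cast_pow]
  rw [← hQc]
  calc (N.card : ℝ) * Q * p ^ dm ≤
      (∑ v ∈ V, (((Fs.filter (fun f => kil f v)).card : ℕ) : ℝ)) * p ^ dm :=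
        mul_le_mul_of_nonneg_right h4 (by positivity)
    _ = ∑ v ∈ V, (((Fs.filter (fun f => kil f v)).card : ℕ) : ℝ) * p ^ dm := by rw [sum_mul]
    _ ≤ ∑ v ∈ V, 2 ^ g * σ ^ dm := sum_le_sum h2
    _ = V.card * (2 ^ g * σ ^ dm) := by rw [sum_const, nsmul_eq_mul]
    _ ≤ p ^ h' * (2 ^ g * σ ^ dm) := by
      refine mul_le_mul_of_nonneg_right ?_
        (mul_nonneg (by positivity) (pow_nonneg (sig_nonneg _ _) _))
      exact_mod_cast hVcard
    _ = _ := mul_comm _ _

end Pool.Agent.TH170.QE
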