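import Mathlib
import Pool.Agent.TH170.QE.Fam
import Pool.Agent.TH170.QC.Iso

/-!
# The odd sign functions orthogonal to a space isomorphic to a given one
-/

set_option linter.unusedSectionVars false
set_option linter.unusedVariables false

namespace Pool.Agent.TH170.QE

open Finset Module Pool.Agent.TH170.MF Pool.Agent.TH170.QC Pool.Agent.TH170.GC

section homs

variable {G X : Type*} [Group G] [MulAction G X] [Fintype X]

/-- Composition on the left with an injective equivariant map. -/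
theorem finrank_homs_le_left {S S' S'' : Submodule ℚ (X → ℚ)} {T : S' →ₗ[ℚ] (X → ℚ)}
    (hT : T ∈ homs G S' S'') (hinj : Function.Injective T) :
    finrank ℚ (homs G S S') ≤ finrank ℚ (homs G S S'') := by
  let Ψ : homs G S S' →ₗ[ℚ] homs G S S'' :=
    { toFun := fun A => ⟨T.comp (A.1.codRestrict S' A.2.1), fun s => hT.1 _,
        fun γ s t h x => hT.2 γ _ _ (fun y => A.2.2 γ s t h y) x⟩
      map_add' := fun A B => by
        apply Subtype.ext
        refine LinearMap.ext fun s => ?_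
        change T _ = T _ + T _
        rw [← map_add]
        rfl
      map_smul' := fun r A => by
        apply Subtype.ext
        refine LinearMap.ext fun s => ?_
        change T _ = r • T _
        rw [← map_smul]
        rfl }
  refine LinearMap.finrank_le_finrank_of_injective (f := Ψ) ?_
  intro A B h
  apply Subtype.ext
  refine LinearMap.ext fun s => ?_
  have h1 : T (A.1.codRestrict S' A.2.1 s) = T (B.1.codRestrict S' B.2.1 s) :=
    congrArg (fun F : homs G S S'' => F.1 s) h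
  exact congrArg Subtype.val (hinj h1)

/-- Composition on the right with a surjective equivariant map. -/
theorem finrank_homs_le_right {S S' S'' : Submodule ℚ (X → ℚ)} {T : S' →ₗ[ℚ] (X → ℚ)}
    (hT : T ∈ homs G S' S) (hsurj : ∀ s ∈ S, ∃ s', T s' = s) :
    finrank ℚ (homs G S S'') ≤ finrank ℚ (homs G S' S'') := by
  let Ψ : homs G S S'' →ₗ[ℚ] homs G S' S'' :=
    { toFun := fun A => ⟨A.1.comp (T.codRestrict S hT.1), fun s => A.2.1 _,
        fun γ s t h x => A.2.2 γ _ _ (fun y => hT.2 γ s t h y) x⟩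
      map_add' := fun A B => rfl
      map_smul' := fun r A => rfl }
  refine LinearMap.finrank_le_finrank_of_injective (f := Ψ) ?_
  intro A B h
  apply Subtype.ext
  refine LinearMap.ext fun s => ?_
  obtain ⟨s', hs'⟩ := hsurj s s.2
  have h1 : A.1 (T.codRestrict S hT.1 s') = B.1 (T.codRestrict S hT.1 s') :=
    congrArg (fun F : homs G S' S'' => F.1 s') h
  have h2 : T.codRestrict S hT.1 s' = s := Subtype.ext hs'
  rw [h2] at h1
  exact h1

/-- Isomorphic spaces have the same spaces of equivariant maps. -/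
theorem finrank_homs_eq {S S' : Submodule ℚ (X → ℚ)} (hS : Invariant G S)
    {T : S →ₗ[ℚ] (X → ℚ)} (hT : T ∈ homs G S S') (hinj : Function.Injective T)
    (hsurj : ∀ s ∈ S', ∃ s', T s' = s) :
    finrank ℚ (homs G S S') = finrank ℚ (homs G S S) ∧
      finrank ℚ (homs G S S') = finrank ℚ (homs G S' S') := by
  -- the inverse
  let T₀ : S ≃ₗ[ℚ] S' := LinearEquiv.ofBijective (T.codRestrict S' hT.1)
    ⟨fun s t h => hinj (congrArg Subtype.val h), fun s => by
      obtain ⟨s', hs'⟩ := hsurj s s.2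
      exact ⟨s', Subtype.ext hs'⟩⟩
  have hT₀ : ∀ s, ((T₀ s : S') : X → ℚ) = T s := fun s => rfl
  let T' : S' →ₗ[ℚ] (X → ℚ) := S.subtype.comp T₀.symm.toLinearMap
  have hT' : T' ∈ homs G S' S := by
    refine ⟨fun s => (T₀.symm s).2, fun γ s t h x => ?_⟩
    have h1 : T₀.symm t = (⟨fun x => (T₀.symm s : X → ℚ) (γ • x), hS γ _ (T₀.symm s).2⟩ : S) := by
      rw [LinearEquiv.symm_apply_eq]
      apply Subtype.ext
      funext y
      rw [h y, hT₀]
      have h2 := hT.2 γ (T₀.symm s)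
        (⟨fun x => (T₀.symm s : X → ℚ) (γ • x), hS γ _ (T₀.symm s).2⟩ : S) (fun x => rfl) y
      rw [h2, ← hT₀, LinearEquiv.apply_symm_apply]
    change (T₀.symm t : X → ℚ) x = (T₀.symm s : X → ℚ) (γ • x)
    rw [h1]
  have hinj' : Function.Injective T' := fun s t h => T₀.symm.injective (Subtype.ext h)
  have hsurj' : ∀ s ∈ S, ∃ s', T' s' = s := fun s hs => ⟨T₀ ⟨s, hs⟩, by
    change ((T₀.symm (T₀ ⟨s, hs⟩) : S) : X → ℚ) = s
    rw [LinearEquiv.symm_apply_apply]⟩
  constructor
  · exact le_antisymm (finrank_homs_le_left hT' hinj') (finrank_homs_le_left hT hinj)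
  · exact le_antisymm (finrank_homs_le_right hT' hsurj') (finrank_homs_le_right hT hsurj)

end homs

variable {G X : Type*} [Group G] [Fintype G] [MulAction G X] [Fintype X]
  [DecidableEq X] [MulAction.IsPretransitive G X]

/-- Minimal spaces with the same class functions are isomorphic. -/
theorem homs_of_killers {c : X → X} {S S' : Submodule ℚ (X → ℚ)} (hS : S ∈ MinInv G c)
    (hS' : S' ∈ MinInv G c)
    (hK : killers G (S : Set (X → ℚ)) = killers G (S' : Set (X → ℚ))) :
    finrank ℚ (homs G S S') = finrank ℚ (homs G S S) ∧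
      finrank ℚ (homs G S S') = finrank ℚ (homs G S' S') := by
  classical
  obtain ⟨h0, hi, ho, hmin⟩ := hS
  obtain ⟨h0', hi', ho', hmin'⟩ := hS'
  obtain ⟨A, hA, hAS, s₀, hs₀, hne⟩ := exists_equivariant hi h0 hi' h0' hK
  have hT : A.comp S.subtype ∈ homs G S S' := by
    refine ⟨fun s => hAS _, fun γ s t h x => ?_⟩
    have h1 : (t : X → ℚ) = fun y => (s : X → ℚ) (γ • y) := funext h
    change A (t : X → ℚ) x = A (s : X → ℚ) (γ • x)
    rw [h1, hA]
  refine finrank_homs_eq hi hT ?_ ?_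
  · -- the kernel
    let K : Submodule ℚ (X → ℚ) := S ⊓ LinearMap.ker A
    have hK : Invariant G K := by
      rintro γ s ⟨h1, h2⟩
      refine ⟨hi γ s h1, ?_⟩
      change A _ = 0
      funext x
      rw [hA]
      have h3 : A s = 0 := h2
      rw [h3]
      rfl
    intro s t hst
    have hst' : A (s : X → ℚ) = A (t : X → ℚ) := hst
    rcases hmin K hK inf_le_left with h | h
    · have h1 : ((s : X → ℚ) - t) ∈ K := by
        refine ⟨S.sub_mem s.2 t.2, ?_⟩
        change A _ = 0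
        rw [map_sub, hst', sub_self]
      rw [h, Submodule.mem_bot, sub_eq_zero] at h1
      exact Subtype.ext h1
    · exfalso
      apply hne
      have h1 : s₀ ∈ K := h ▸ hs₀
      exact h1.2
  · intro s hs
    have hI : Invariant G (S.map A) := by
      rintro γ _ ⟨t, ht, rfl⟩
      refine ⟨fun y => t (γ • y), hi γ t ht, ?_⟩
      funext x
      rw [hA]
    have hle : S.map A ≤ S' := by
      rintro _ ⟨t, ht, rfl⟩
      exact hAS t
    rcases hmin' _ hI hle with h | h
    · exfalso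
      apply hne
      have h1 : A s₀ ∈ S.map A := ⟨s₀, hs₀, rfl⟩
      rw [h] at h1
      exact h1
    · rw [← h] at hs
      obtain ⟨t, ht, rfl⟩ := hs
      exact ⟨⟨t, ht⟩, rfl⟩

/-- **The number of odd sign functions orthogonal to some space isomorphic to a given one.** -/
theorem ncard_class {p : ℕ} [Fact p.Prime] (hp : p ≠ 2) (hpG : ¬ p ∣ Nat.card G) {c : G}
    (hc : c * c = 1) (hfree : ∀ x : X, c • x ≠ x) (hcen : ∀ x, c * x = x * c) {g : ℕ}
    (hg : Fintype.card X = 2 * g) {S₀ : Submodule ℚ (X → ℚ)} (hS₀ : Invariant G S₀)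
    (hS₀0 : S₀ ≠ ⊥) (x₀ : X) :
    (({f ∈ oddSigns X (fun x => c • x) | ∃ S : Submodule ℚ (X → ℚ), Invariant G S ∧
      AllOdd (fun x => c • x) S ∧ finrank ℚ (homs G S₀ S) = finrank ℚ (homs G S₀ S₀) ∧
        finrank ℚ (homs G S₀ S) = finrank ℚ (homs G S S) ∧
          ∀ s ∈ S, ∑ x, (f x : ℚ) * s x = 0}.ncard : ℕ) : ℝ) *
      (((p - 1 : ℕ) : ℝ) ^ finrank ℚ (homs G S₀ S₀) *
        (p : ℝ) ^ (finrank ℚ S₀ - finrank ℚ (fixedPart G x₀ S₀))) ≤
      2 ^ g * sig p ((g : ℝ) / (finrank ℚ S₀ : ℝ)) ^ finrank ℚ S₀ := by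
  classical
  have hX : Nonempty X := ⟨x₀⟩
  obtain ⟨n, D, d, _, _, _, hd, ⟨π⟩⟩ := exists_fields p G hpG
  set m := mult π x₀ hS₀ with hm
  have hdim := finrank_eq_sum π x₀ hS₀
  rw [← hm] at hdim
  have he := finrank_homs π hpG x₀ hS₀ hS₀
  rw [← hm] at he
  have hh := sum_good_mult_le π hp hpG hc hcen x₀ hS₀
  rw [← hm] at hh
  have hd0 : 0 < finrank ℚ S₀ := by
    rw [Module.finrank_pos_iff]
    exact Submodule.nontrivial_iff_ne_bot.2 hS₀0
  have hmain := ncard_spaces π hp hpG hc hfree hcen hg x₀ m (by rw [← hdim]; exact hd0)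
  rw [← hdim, ← he] at hmain
  have hp0 : (0 : ℝ) < p := Nat.cast_pos.2 (Fact.out : p.Prime).pos
  have hp1 : (1 : ℝ) ≤ p := by exact_mod_cast (Fact.out : p.Prime).one_le
  set A := {f ∈ oddSigns X (fun x => c • x) | ∃ S : Submodule ℚ (X → ℚ), Invariant G S ∧
      AllOdd (fun x => c • x) S ∧ finrank ℚ (homs G S₀ S) = finrank ℚ (homs G S₀ S₀) ∧
        finrank ℚ (homs G S₀ S) = finrank ℚ (homs G S S) ∧
          ∀ s ∈ S, ∑ x, (f x : ℚ) * s x = 0} with hA
  set B := {f ∈ oddSigns X (fun x => c • x) |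
      ∃ U : ∀ i, Submodule (D i) (Fin (d i) → D i), ∀ i, U i ≤ goodSpace π x₀ c i ∧
        finrank (D i) (U i) = m i ∧ ∀ v ∈ U i,
          (π (hat x₀ (fun x => ((f x : ℤ) : ZMod p))) i).mulVec v = 0} with hB
  have hAB : A.ncard ≤ B.ncard := by
    refine Set.ncard_le_ncard ?_ ((finite_oddSigns (X := X) (fun x => c • x)).subset
      fun f hf => hf.1)
    rintro f ⟨hf, S, hSi, hSo, h1, h2, horth⟩
    refine ⟨hf, fun i => col π x₀ (stable_redSpace (p := p) hSi) i, fun i => ⟨?_, ?_, ?_⟩⟩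
    · rintro _ ⟨_, ⟨u, hu, rfl⟩, rfl⟩
      refine ⟨fun h hh => ?_, ?_⟩
      · rw [Matrix.mulVec_mulVec, ← Pi.mul_apply, ← map_mul, single_mul_theta hh]
      · have hodd : ∀ x, ((u (c • x) : ℤ) : ZMod p) = - ((u x : ℤ) : ZMod p) := by
          intro x
          have h3 : ((u (c • x) : ℤ) : ℚ) = - ((u x : ℤ) : ℚ) := hSo _ hu x
          have h4 : u (c • x) = - u x := by exact_mod_cast h3
          rw [h4]
          push_cast
          rfl
        rw [Matrix.mulVec_mulVec, ← Pi.mul_apply, ← map_mul, single_mul_theta_odd hc hcen hodd,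
          map_neg, Pi.neg_apply, Matrix.neg_mulVec]
    · exact (mult_eq π hpG x₀ hS₀ hSi h1 h2 i).symm
    · rintro _ ⟨_, ⟨u, hu, rfl⟩, rfl⟩
      rw [Matrix.mulVec_mulVec, ← Pi.mul_apply, ← map_mul, hat_mul_theta x₀ (card_fiber' x₀),
        map_zero, Pi.zero_apply, Matrix.zero_mulVec]
      intro γ
      have h3 := horth _ (hSi γ _ hu)
      have h4 : ∑ x, f x * u (γ • x) = 0 := by exact_mod_cast h3
      have h5 := congrArg (fun t : ℤ => (t : ZMod p)) h4
      push_cast at h5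
      exact h5
  have hfix : finrank ℚ (fixedPart G x₀ S₀) ≤ finrank ℚ S₀ :=
    Submodule.finrank_mono fun u hu => hu.1
  set dd := finrank ℚ S₀ with hdd
  set h := finrank ℚ (fixedPart G x₀ S₀) with hhdef
  set e := finrank ℚ (homs G S₀ S₀) with hedef
  have h3 : (p : ℝ) ^ dd = (p : ℝ) ^ (dd - h) * (p : ℝ) ^ h := by
    rw [← pow_add, Nat.sub_add_cancel hfix]
  have h2 : (A.ncard : ℝ) * (((p - 1 : ℕ) : ℝ) ^ e * (p : ℝ) ^ (dd - h)) * (p : ℝ) ^ h ≤
      2 ^ g * sig p ((g : ℝ) / dd) ^ dd * (p : ℝ) ^ h := by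
    calc (A.ncard : ℝ) * (((p - 1 : ℕ) : ℝ) ^ e * (p : ℝ) ^ (dd - h)) * (p : ℝ) ^ h =
        (A.ncard : ℝ) * ((p - 1 : ℕ) : ℝ) ^ e * (p : ℝ) ^ dd := by
          rw [h3]
          ring
      _ ≤ (B.ncard : ℝ) * ((p - 1 : ℕ) : ℝ) ^ e * (p : ℝ) ^ dd := by gcongr
      _ ≤ _ := hmain
      _ ≤ _ := by
        refine mul_le_mul_of_nonneg_left (pow_le_pow_right₀ hp1 hh) ?_
        exact mul_nonneg (by positivity) (pow_nonneg (sig_nonneg _ _) _)
  exact le_of_mul_le_mul_right h2 (by positivity)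

end Pool.Agent.TH170.QE
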